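import Pool.Agent.H27.GW.Nrw

/-!
# Structures of cells and chains of cells have no infinite prime quotient

`CL y eq P lt`: the classes of `eq` (the cells) are finite; the cells in `P j` are linearly ordered by
`lt j`; a relation of `y` holds only inside cells, or it is one of the orders.
-/

set_option autoImplicit false

namespace Pool.H63.TB

open Set Function Pool.H62.VT Pool.H63.MQ Pool.H27.GK Pool.H27.GW
open Pool.H62.VS (Mod SMod Nd Spt QFin)

variable {b : ℕ → ℕ}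

/-- structures of cells and chains of cells -/
structure CL (y : Str b) (eq : ℕ → ℕ → Prop) (P : ℕ → Set ℕ) (lt : ℕ → ℕ → ℕ → Prop) : Prop where
  refl : ∀ u, eq u u
  symm : ∀ u v, eq u v → eq v u
  trans : ∀ u v w, eq u v → eq v w → eq u w
  fin : ∀ u, {v | eq u v}.Finite
  dj : ∀ i j u, u ∈ P i → u ∈ P j → i = j
  sub : ∀ j u v, lt j u v → u ∈ P j ∧ v ∈ P j
  neq : ∀ j u v, lt j u v → ¬ eq u v
  tr : ∀ j u v w, lt j u v → lt j v w → lt j u w
  tot : ∀ j u v, u ∈ P j → v ∈ P j → ¬ eq u v → lt j u v ∨ lt j v u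
  inv : ∀ j u u' v, eq u u' → (lt j u v → lt j u' v) ∧ (lt j v u → lt j v u')
  rel : ∀ n, (∀ t : Fin (b n) → ℕ, (∃ i j, t i ≠ t j) → y n t = true → ∀ i j, eq (t i) (t j)) ∨
    ∃ j, b n = 2 ∧ ∀ t : Fin (b n) → ℕ, (∃ i k, t i ≠ t k) →
      (y n t = true ↔ ∃ i k, i < k ∧ lt j (t i) (t k))

variable {y : Str b} {eq : ℕ → ℕ → Prop} {P : ℕ → Set ℕ} {lt : ℕ → ℕ → ℕ → Prop} {f : ℕ → ℕ}
  {A : Set ℕ}

theorem CL.asymm (h : CL y eq P lt) {j u v : ℕ} (h1 : lt j u v) : ¬ lt j v u := fun h2 =>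
  h.neq j u u (h.tr j u v u h1 h2) (h.refl u)

/-- a criterion for modules -/
theorem CL.mod (h : CL y eq P lt) (hA : ∀ w, w ∉ A → ∀ x ∈ A, ¬ eq x w)
    (hlt : ∀ w, w ∉ A → ∀ x ∈ A, ∀ x' ∈ A, ∀ j, (lt j x w → lt j x' w) ∧ (lt j w x → lt j w x')) :
    Mod y A := by
  intro n t t' htt hout
  by_cases hE : t = t'
  · rw [hE]
  obtain ⟨k, hk⟩ := Function.ne_iff.1 hE
  have hkA : t k ∈ A ∧ t' k ∈ A := (htt k).elim (fun h' => absurd h' hk) id
  obtain ⟨i0, hi0⟩ := hout
  have hi0' : t' i0 = t i0 := (htt i0).elim Eq.symm (fun h' => absurd h'.1 hi0)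
  have hi1 : t' i0 ∉ A := hi0'.symm ▸ hi0
  have c1 : ∃ i j, t i ≠ t j := ⟨i0, k, fun h' => hi0 (h' ▸ hkA.1)⟩
  have c2 : ∃ i j, t' i ≠ t' j := ⟨i0, k, fun h' => hi1 (h' ▸ hkA.2)⟩
  rcases h.rel n with hr | ⟨j, hn, hr⟩
  · have e1 : ¬ (y n t = true) := fun h1 => hA _ hi0 _ hkA.1 (hr t c1 h1 k i0)
    have e2 : ¬ (y n t' = true) := fun h1 => hA _ hi1 _ hkA.2 (hr t' c2 h1 k i0)
    rw [Bool.not_eq_true] at e1 e2
    rw [e1, e2]
  · have key : ∀ s s' : Fin (b n) → ℕ, (∀ i, s i = s' i ∨ (s i ∈ A ∧ s' i ∈ A)) →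
        s i0 = s' i0 → s i0 ∉ A → s k ∈ A → s' k ∈ A → (∃ i k, i < k ∧ lt j (s i) (s k)) →
        ∃ i k, i < k ∧ lt j (s' i) (s' k) := by
      intro s s' hss h0 h0' hk1 hk2
      rintro ⟨i, l, hil, hlt'⟩
      have hne : i0 ≠ k := fun h' => h0' (h' ▸ hk1)
      have h2 : ∀ i l : Fin (b n), i ≠ l → (i = i0 ∧ l = k) ∨ (i = k ∧ l = i0) := by
        intro i l hne'
        have a1 := i.isLt
        have a2 := l.isLt
        have a3 := i0.isLt
        have a4 := k.isLt
        have b1 : (i : ℕ) ≠ l := fun h' => hne' (Fin.ext h')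
        have b2 : (i0 : ℕ) ≠ k := fun h' => hne (Fin.ext h')
        have : ((i : ℕ) = i0 ∧ (l : ℕ) = k) ∨ ((i : ℕ) = k ∧ (l : ℕ) = i0) := by omega
        rcases this with ⟨c1, c2⟩ | ⟨c1, c2⟩
        · exact Or.inl ⟨Fin.ext c1, Fin.ext c2⟩
        · exact Or.inr ⟨Fin.ext c1, Fin.ext c2⟩
      refine ⟨i, l, hil, ?_⟩
      rcases h2 i l hil.ne with ⟨rfl, rfl⟩ | ⟨rfl, rfl⟩
      · rw [← h0]
        exact (hlt _ h0' _ hk1 _ hk2 j).2 hlt'
      · rw [← h0]
        exact (hlt _ h0' _ hk1 _ hk2 j).1 hlt'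
    rw [Bool.eq_iff_iff, hr t c1, hr t' c2]
    constructor
    · exact key t t' htt hi0'.symm hi0 hkA.1 hkA.2
    · exact key t' t (fun i => (htt i).imp Eq.symm And.symm) hi0' hi1 hkA.2 hkA.1

/-- a structure of cells and chains of cells is not prime -/
theorem CL.not_prm (h : CL y eq P lt) : ¬ Prm y := by
  intro hp
  have hfin : ∀ A : Set ℕ, A.Finite → A ≠ univ := fun A hA h' => infinite_univ (h' ▸ hA)
  by_cases h1 : ∃ u v, u ≠ v ∧ eq u v
  · obtain ⟨u, v, huv, hE⟩ := h1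
    have hm : Mod y {w | eq u w} := by
      refine h.mod (fun w hw x hx hxw => hw (h.trans u x w hx hxw)) ?_
      intro w hw x hx x' hx' j
      have e : eq x x' := h.trans x u x' (h.symm u x hx) hx'
      exact ⟨(h.inv j x x' w e).1, (h.inv j x x' w e).2⟩
    rcases hp _ hm with h2 | h2
    · exact huv (h2 (h.refl u) hE)
    · exact hfin _ (h.fin u) h2
  push Not at h1
  have hA : ∀ A : Set ℕ, ∀ w, w ∉ A → ∀ x ∈ A, ¬ eq x w := by
    intro A w hw x hx hxw
    by_cases e : x = w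
    · exact hw (e ▸ hx)
    · exact h1 x w e hxw
  by_cases h2 : ∃ j u v w, u ≠ v ∧ u ≠ w ∧ v ≠ w ∧ u ∈ P j ∧ v ∈ P j ∧ w ∈ P j
  · have h3 : ∃ j u v w, lt j u v ∧ lt j v w := by
      obtain ⟨j, u, v, w, huv, huw, hvw, hu, hv, hw⟩ := h2
      rcases h.tot j u v hu hv (h1 u v huv) with a1 | a1 <;>
        rcases h.tot j u w hu hw (h1 u w huw) with a2 | a2 <;>
        rcases h.tot j v w hv hw (h1 v w hvw) with a3 | a3
      · exact ⟨j, u, v, w, a1, a3⟩
      · exact ⟨j, u, w, v, a2, a3⟩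
      · exact ⟨j, u, v, w, a1, a3⟩
      · exact ⟨j, w, u, v, a2, a1⟩
      · exact ⟨j, v, u, w, a1, a2⟩
      · exact ⟨j, v, u, w, a1, a2⟩
      · exact ⟨j, v, w, u, a3, a2⟩
      · exact ⟨j, w, v, u, a3, a1⟩
    obtain ⟨j, u, v, w, huv, hvw⟩ := h3
    have hm : Mod y {x | x = v ∨ lt j x v} := by
      refine h.mod (hA _) ?_
      intro w' hw' x hx x' hx' j'
      have hP : ∀ x, x ∈ {x | x = v ∨ lt j x v} → x ∈ P j := by
        rintro x (rfl | hx)
        · exact (h.sub j _ _ hvw).1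
        · exact (h.sub j _ _ hx).1
      have hup : w' ∈ P j → ∀ x, x ∈ {x | x = v ∨ lt j x v} → lt j x w' := by
        intro hwP x hx
        have hne : v ≠ w' := fun h' => hw' (Or.inl h'.symm)
        have h4 : lt j v w' := by
          rcases h.tot j v w' (h.sub j _ _ hvw).1 hwP (h1 v w' hne) with h4 | h4
          · exact h4
          · exact absurd (Or.inr h4) hw'
        rcases hx with rfl | hx
        · exact h4
        · exact h.tr j x v w' hx h4
      constructor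
      · intro h4
        have hj : j' = j := h.dj j' j x (h.sub j' _ _ h4).1 (hP x hx)
        subst hj
        exact hup (h.sub j' _ _ h4).2 x' hx'
      · intro h4
        have hj : j' = j := h.dj j' j x (h.sub j' _ _ h4).2 (hP x hx)
        subst hj
        exact absurd (hup (h.sub j' _ _ h4).1 x hx) (h.asymm h4)
    rcases hp _ hm with h4 | h4
    · have e : u = v := h4 (Or.inr huv) (Or.inl rfl)
      exact h.neq j u v huv (e ▸ h.refl u)
    · have : w ∈ {x | x = v ∨ lt j x v} := h4 ▸ mem_univ w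
      rcases this with rfl | h5
      · exact h.neq j w w hvw (h.refl w)
      · exact h.asymm hvw h5
  · -- two points
    obtain ⟨u, v, huv, hno⟩ : ∃ u v : ℕ, u ≠ v ∧ ∀ w, w ≠ u → w ≠ v → ∀ j,
        ¬ lt j u w ∧ ¬ lt j w u ∧ ¬ lt j v w ∧ ¬ lt j w v := by
      by_cases h3 : ∃ j u v, u ≠ v ∧ u ∈ P j ∧ v ∈ P j
      · obtain ⟨j, u, v, huv, hu, hv⟩ := h3
        refine ⟨u, v, huv, fun w hwu hwv j' => ?_⟩
        have hno : ∀ x, (x = u ∨ x = v) → x ∈ P j' → w ∈ P j' → False := by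
          intro x hx hxP hwP
          have hxj : x ∈ P j := by
            rcases hx with rfl | rfl
            · exact hu
            · exact hv
          have hj : j' = j := h.dj j' j x hxP hxj
          subst hj
          exact h2 ⟨j', u, v, w, huv, hwu.symm, hwv.symm, hu, hv, hwP⟩
        refine ⟨fun h4 => ?_, fun h4 => ?_, fun h4 => ?_, fun h4 => ?_⟩
        · exact hno u (Or.inl rfl) (h.sub j' _ _ h4).1 (h.sub j' _ _ h4).2
        · exact hno u (Or.inl rfl) (h.sub j' _ _ h4).2 (h.sub j' _ _ h4).1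
        · exact hno v (Or.inr rfl) (h.sub j' _ _ h4).1 (h.sub j' _ _ h4).2
        · exact hno v (Or.inr rfl) (h.sub j' _ _ h4).2 (h.sub j' _ _ h4).1
      · push Not at h3
        have hno : ∀ j x w, x ≠ w → ¬ lt j x w := fun j x w hne h4 =>
          h3 j x w hne (h.sub j _ _ h4).1 (h.sub j _ _ h4).2
        exact ⟨0, 1, by decide, fun w h0 h4 j =>
          ⟨hno j 0 w h0.symm, hno j w 0 h0, hno j 1 w h4.symm, hno j w 1 h4⟩⟩
    have hm : Mod y {u, v} := by
      refine h.mod (hA _) ?_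
      intro w hw x hx x' hx' j
      have hwu : w ≠ u := fun h' => hw (Or.inl h')
      have hwv : w ≠ v := fun h' => hw (Or.inr h')
      have h4 := hno w hwu hwv j
      rcases hx with hx | hx
      · rw [hx]
        exact ⟨fun h5 => absurd h5 h4.1, fun h5 => absurd h5 h4.2.1⟩
      · rw [mem_singleton_iff.1 hx]
        exact ⟨fun h5 => absurd h5 h4.2.2.1, fun h5 => absurd h5 h4.2.2.2⟩
    rcases hp _ hm with h4 | h4
    · exact huv (h4 (Or.inl rfl) (Or.inr rfl))
    · exact hfin _ (Set.toFinite _) h4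

/-- induced structures -/
theorem CL.comap (h : CL y eq P lt) (hf : Injective f) :
    CL (qs y f) (fun u v => eq (f u) (f v)) (fun j => f ⁻¹' P j) (fun j u v => lt j (f u) (f v)) where
  refl u := h.refl _
  symm u v := h.symm _ _
  trans u v w := h.trans _ _ _
  fin u := (h.fin (f u)).preimage hf.injOn
  dj i j u := h.dj i j _
  sub j u v := h.sub j _ _
  neq j u v := h.neq j _ _
  tr j u v w := h.tr j _ _ _
  tot j u v := h.tot j _ _
  inv j u u' v := h.inv j _ _ _
  rel n := by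
    have hc : ∀ t : Fin (b n) → ℕ, (∃ i j, t i ≠ t j) → ∃ i j, f (t i) ≠ f (t j) := by
      rintro t ⟨i, j, hij⟩
      exact ⟨i, j, fun h' => hij (hf h')⟩
    rcases h.rel n with hr | ⟨j, hn, hr⟩
    · left
      intro t ht h1
      have h2 : (∃ i j, t i ≠ t j) ∧ y n (fun i => f (t i)) = true := of_decide_eq_true h1
      exact hr (fun i => f (t i)) (hc t ht) h2.2
    · right
      refine ⟨j, hn, fun t ht => ?_⟩
      rw [← hr (fun i => f (t i)) (hc t ht)]
      constructor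
      · intro h1
        have h2 : (∃ i j, t i ≠ t j) ∧ y n (fun i => f (t i)) = true := of_decide_eq_true h1
        exact h2.2
      · intro h1
        exact decide_eq_true ⟨ht, h1⟩

/-- The class of the structures of cells and chains of cells is tame. -/
theorem tame_cl (b : ℕ → ℕ) : Tame {y : Str b | ∃ eq P lt, CL y eq P lt} := by
  have h0 : Tame (∅ : Set (Str b)) := fun B _ _ =>
    Or.inl ⟨∅, countable_empty, fun x _ h => absurd h (notMem_empty _)⟩
  refine Tame.mono (tame_prime h0) ?_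
  rintro y ⟨eq, P, lt, h⟩ p q hpq f hf hp
  exact absurd hp (h.comap (rps_inj hpq hf)).not_prm

end Pool.H63.TB
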