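import Pool.Agent.H17.TD.Wp
import Pool.Agent.H17.HS.Final
import Pool.Agent.H22.CO.Def
import Pool.Agent.H63.MQ.Tame

/-!
# Few substructures and countable unions of tame classes
-/

set_option autoImplicit false

namespace Pool.H63.TB

open Set Function
open Pool.H62.VT (Str)
open Pool.H22.VC (Wild)

variable {a : ℕ → ℕ} {r : ℕ}

/-- substructures of the structure without unary relations -/
theorem sub_nu (x : Str a) {f : ℕ → ℕ} (hf : Injective f) :
    Pool.H17.HS.sub (Pool.H22.CO.nu x) f = Pool.H17.HS.subn x f := by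
  funext n t
  have e : (∃ i j, f (t i) ≠ f (t j)) ↔ ∃ i j, t i ≠ t j := by
    refine exists_congr fun i => exists_congr fun j => ?_
    rw [Ne, Ne, hf.eq_iff]
  rw [Bool.eq_iff_iff]
  show (decide ((∃ i j, f (t i) ≠ f (t j)) ∧ x n (fun i => f (t i)) = true) = true) ↔
    (decide ((∃ i j, t i ≠ t j) ∧ x n (fun i => f (t i)) = true) = true)
  rw [decide_eq_true_iff, decide_eq_true_iff, e]

/-- a structure with few substructures is not wild after the unary relations are forgotten -/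
theorem few_not_wild {x : Str a} (h : Pool.H17.HS.Few x) :
    ¬ Wild (Pool.H22.VN.cod r (Pool.H22.CO.nu x)) univ := by
  intro hw
  obtain ⟨F, hF⟩ := h
  obtain ⟨P, h1, h2, h3, h4⟩ := Pool.H17.TD.wild_perf (Pool.H22.CO.nu x) hw F
  refine hF ⟨P, h1, h2, fun y hy => ?_, h4⟩
  obtain ⟨f, hf1, hf2, rfl⟩ := h3 y hy
  exact ⟨f, hf1, hf2, sub_nu x hf1⟩

/-- countable unions of tame classes are tame -/
theorem tame_iUnion {ι : Type} [Countable ι] {K : ι → Set (Str a)} (h : ∀ i, Pool.H63.MQ.Tame (K i)) :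
    Pool.H63.MQ.Tame (⋃ i, K i) := by
  intro B hB hinv
  by_cases hP : ∃ P : Set (Pool.H63.MQ.Ex a), P.Nonempty ∧ Perfect P ∧ P ⊆ B ∧
      ∀ x ∈ P, ∀ y ∈ P, Pool.H63.MQ.EIso x y → x = y
  · exact Or.inr hP
  · left
    choose C hC hC' using fun i => (h i B hB hinv).resolve_right hP
    refine ⟨⋃ i, C i, countable_iUnion hC, fun x hx hxK => ?_⟩
    obtain ⟨i, hi⟩ := mem_iUnion.1 hxK
    obtain ⟨c, hc, hc'⟩ := hC' i x hx hi
    exact ⟨c, mem_iUnion.2 ⟨i, hc⟩, hc'⟩

end Pool.H63.TB
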